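import Mathlib
import Pool.Agent.Helper15.GT.KCls

/-!
# Voisin's conjecture for all K3 surfaces and almost all `n`, and for decomposed regular surfaces

Let `k` be an algebraically closed field of characteristic zero. `KCls k F p` (file Helper15/GT/KCls.lean) is the smallest
class of pairs of a field `F` over `k` and a number `p` with the following properties.
* (`cov`) Let `C` be a curve of genus one over the function field `K` of a curve `B` of genus `g`, with Jacobian
  `y ^ 2 = x ^ 3 + a x + b`, and let `E` be the minimal divisor on `B` with `div a + 4 E ≥ 0`, `div b + 6 E ≥ 0`; let `E` be
  not principal (for example `deg E > 0`). Let `F ⊆ k (C)`: so the variety with function field `F` is covered by the curves `C_t`, `t ∈ B`. Assume that `g = 0`, or that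
  a rational curve meets the general curve `C_t`: there is a place of `k (C)` over `K` such that the residues of the
  elements of `F` are contained in a field `k (z)`. Then `(F, deg E + g - 1)` is in the class.
* (`sub`) If `F ⊆ F'` and `(F', p)` is in the class then `(F, p)` is in the class.
* (`dec`) Let the finite group `G` act on `F`, and let `H`, `G_1, …, G_m` be subgroups such that the sum of the elements of
  `H` is contained in the left ideal of `ℚ[G]` generated by the sums of the elements of the `G_i`. If the pairs of the
  fixed field of `G_i` and `p_i` are in the class, then the pair of the fixed field of `H` and `p_1 + ⋯ + p_m` is.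

Theorem. Let `(F, p)` be in the class, and `S ⊆ P^(M-1)` the closure of a point `ξ` with coordinates in `F`, `n > p`, and
`a_1, …, a_n` zero-cycles of DEGREE ZERO on `S`. Then the alternating sum of the exterior products
`a_{σ(1)} × ⋯ × a_{σ(n)}` is torsion in the Chow group of zero-cycles of `S ^ n`.

Examples (not part of the theorem).
* Every `K3` surface `S` has a family of curves as in `cov`: it contains a curve of geometric genus one which moves in a
  non-isotrivial family (Chen, Gounelas), and an ample divisor which is a sum of rational curves (Bogomolov, Mumford). So
  for every `K3` surface the alternating relations hold for all but finitely many `n`; and so they do for every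
  surface (also of general type) the motive of which decomposes, by a finite group acting on it or on a surface
  which dominates it, into parts coming from `K3` surfaces and surfaces with a fibration in curves of genus one over
  `P¹` with `q = 0`.
* For surfaces with a genus one fibration and `q = 0`, and for the surfaces decomposed into such, `p = p_g`, e.g. double
  planes over a line and a quintic, bidouble planes branched along three cubics, intersections of four diagonal
  quadrics in `P⁶`; the theorem also applies to quotients of surfaces with a decomposition by subgroups `H`.

Outline of the proof. For `cov` see the former file K3Surfaces: let `φ` be a function on the points of `S` which vanishes on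
the cycles rationally equivalent to zero; if it is constant on the curves `C_t` then it comes from a function on
`B` which vanishes on principal divisors; it is constant if a rational curve meets the general `C_t`, or if
`g = 0`. For `dec` see GeneralType; the cycles on `S` are lifted to rational places of `F`.
-/

namespace Pool.Agent.Helper15.Keep.CoveredSurfaces

open VC Pool.Agent.Helper21.TO Pool.Agent.Helper15.GT

universe u

theorem result (k : Type u) [Field k] [IsAlgClosed k] [CharZero k] (F : Type u) [Field F] [Algebra k F]
    (p : ℕ) (h : KCls k F p) (M : ℕ) (ξ : Fin M → F) (hξ : ξ ≠ 0) (n : ℕ) (hn : p < n)
    (a : Fin n → (proj k (van k ξ)).Cycles) (ha : ∀ i, (a i).sum (fun _ c => c) = 0) :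
    ∃ m : ℕ, 0 < m ∧ m • ∑ σ : Equiv.Perm (Fin n), ((Equiv.Perm.sign σ : ℤˣ) : ℤ) •
      extProd (fun i => a (σ i)) ∈ ((proj k (van k ξ)).pow n).Rat :=
  h.vp M ξ hξ n hn a ha

end Pool.Agent.Helper15.Keep.CoveredSurfaces
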