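import Mathlib
import Pool.Agent.Helper15.GT.Cls

/-!
# Voisin's conjecture for surfaces decomposed into genus one fibrations

Let `k` be an algebraically closed field of characteristic zero. `Cls k F p` (file Helper15/GT/Cls.lean) is the smallest
class of pairs of a field `F` over `k` and a number `p` with the following properties.
* (`fib`) Let `C` be a curve of genus one over the function field `K` of a curve `B` of genus `g`, with Jacobian
  `y ^ 2 = x ^ 3 + a x + b`, and let `E` be the minimal divisor on `B` with `div a + 4 E ≥ 0`, `div b + 6 E ≥ 0`. Then
  `(k (C), p)` is in the class for `p = deg E + g - 1`, but `p = g` if `E` is a principal divisor. Let `S` be the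
  smooth surface with a relatively minimal fibration over `B` with generic fibre `C` (there may be multiple
  fibres). Then `deg E = χ (O_S)` and `p = h^0 (B, K_B + E) = p_g (S)`.
* (`ruled`) `(K (x), 0)` is in the class, if `K` is the function field of a curve.
* (`dec`) Let the finite group `G` act on `F`, let `G_1, …, G_m` be subgroups such that the sums of their elements
  generate `ℚ[G]` as a left ideal, and let the pairs of the fixed field of `G_i` and `p_i` be in the class.
  Then `(F, p_1 + ⋯ + p_m)` is in the class.

Theorem. Let `(F, p)` be in the class, and `S ⊆ P^(M-1)` the closure of a point `ξ` with coordinates in `F` (for example any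
projective surface with function field `F`), `n > p`, and `a_1, …, a_n` Albanese trivial cycles on `S` (of
degree zero, with principal direct images on all curves `B` of positive genus with `k (B) ⊆ F`, where `S → B`
is assumed to be a morphism; it is one if `S` is smooth). Then the alternating sum of the exterior products
`a_{σ(1)} × ⋯ × a_{σ(n)}` is torsion in the Chow group of zero-cycles of `S ^ n`.

Examples with `p = p_g (S)` (not part of the theorem), for smooth projective `S`:
* ALL surfaces with a genus one fibration: so all surfaces of Kodaira dimension one, all K3 surfaces of Picard
  number at least five, for example the K3 double planes branched along a line and a quintic, all Enriques and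
  bielliptic surfaces; all ruled surfaces;
* all `(ℤ/2)^r`-covers `S` of `P¹ × P¹`, or of any ruled surface over a curve `B`, such that each of the `2 ^ r - 1` double
  subcovers is branched along a curve of degree at most four over the base of some ruling: by the theory of
  abelian covers `p_g (S)` is the sum of their geometric genera. For instance the
  bidouble covers of `P¹ × P¹` branched along three smooth curves of bidegree `(2, m)`, which have `p_g = 3 (m - 1)`
  and ample canonical class for `m ≥ 2`; the intersections of four diagonal quadrics in `P⁶` (`(ℤ/2)^6`-covers of
  the plane branched along seven lines; `p_g = 7`, `K = O (1)`); bidouble planes branched along three cubics (`p_g = 3`).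
* in particular, for `k ≥ 2`, the smooth bidouble covers `S` of `Y = P¹ × P¹` with branch curves `D_1`, `D_3` of bidegree
  `(2, 4)` and `D_2` consisting of `2 k` curves of bidegree `(1, 0)`. Here `L_i = (D_j + D_l) / 2` has bidegree
  `(k + 1, 2)`, `(2, 4)`, `(k + 1, 2)`, so `K_S` is the pull back of `O (k, 2)`, which is ample, `K_S² = 16 k`, `q = 0` and
  `p_g = ∑ h⁰ (K_Y + L_i) = k + 3 + k`. THESE SURFACES FORM AN OPEN SUBSET OF THE MODULI SPACE of surfaces of general
  type: `H¹ (S, T_S)` is the sum of `H¹ (Y, T_Y (- log D))` and of the three groups
  `H¹ (Y, T_Y (- log D_i) ⊗ L_i⁻¹)` (Pardini), and the latter vanish. For `i = 2` the restriction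
  `H¹ (O (0, -4)) → ⊕ H¹ (O (-4))` to the `2 k` fibres is injective. For `i = 1, 3` one has
  `H⁰ (O_D (1 - k, 2)) = 0`, and `H¹ (O (- k - 1, 0)) → H¹ (O_D (1 - k, 2)) → H² (O (- k - 1, - 2))` is injective, because it is
  the product with the class in `H¹ (O (0, - 2))` of the section `θ` of `O_D (2, 2)`, `(∂f/∂y_0, ∂f/∂y_1) = θ (y_1, - y_0)`,
  and `θ` does not extend to `Y` by Euler's formula. So every small deformation of `S` is a surface of this form, and
  the conjecture holds (over `ℚ`) for an open set of surfaces in infinitely many components of the moduli space.
So there are surfaces of general type of arbitrarily large `p_g` and `q` in the class.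

Outline of the proof.
* Genus one fibrations: Helper21/TB (`E` not principal; see the former file GenusOneFibrations, whose theorem is contained
  in this one for smooth surfaces), Helper51/IZ (`deg E = 0`), Helper21/TZ (`E` principal: modulo functionals coming from
  the constant Jacobian every functional has the same restriction to all fibres). Ruled surfaces: a function on the points
  of `S` which vanishes on the cycles rationally equivalent to
  zero comes from the base over almost all points of the base; hence everywhere, by choosing a curve through
  any given place of `F` and comparing harmonic functions on it.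
* Decomposition. The closure `X_i` of the point with coordinates `∏_{γ ∈ G_i} γ (∑_j c_j ξ_j)`, where `c` runs through
  a grid, is a model of the quotient by `G_i`, and its points are products of linear forms; so it carries a correspondence
  `Z_i` to cycles on `S` (`y ↦ ∑_γ [z_γ]`). By the identity `D = ∑_i c_i e_{G_i}` in the group ring every Albanese
  trivial cycle `a` on `S` satisfies `D a = ∑_i Z_i (b_i)` with Albanese trivial `b_i` on `X_i`. To make sense of this on
  arbitrary projective models all cycles are written in terms of rational places of `F` (valuation rings with
  residue field `k`), on which `G` acts. In the expansion of the alternating product of `n > ∑ p_i` such sums each term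
  contains more than `p_i` factors from some `X_i`; by the theorem for `X_i` it vanishes.
-/

namespace Pool.Agent.Helper15.Keep.GeneralTypeV1

open VC Pool.Agent.Helper21.TO Pool.Agent.Helper15.GT

universe u

theorem result (k : Type u) [Field k] [IsAlgClosed k] [CharZero k] (F : Type u) [Field F] [Algebra k F]
    (p : ℕ) (h : Cls k F p) (M : ℕ) (ξ : Fin M → F) (hξ : ξ ≠ 0) (n : ℕ) (hn : p < n)
    (a : Fin n → (proj k (van k ξ)).Cycles) (ha0 : ∀ l, (a l).sum (fun _ c => c) = 0)
    (haJ : ∀ (K : Type u) [Field K] [Algebra k K] (hK : IsFunctionField k K) (j : K →ₐ[k] F),
      ¬ IsGenus k K 0 → ∃ π : PPt k k (van k ξ) → Place k K, IsMor j ξ π ∧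
        ∀ l, (a l).mapDomain π ∈ (curve hK).Rat) :
    ∃ m : ℕ, 0 < m ∧ m • ∑ σ : Equiv.Perm (Fin n), ((Equiv.Perm.sign σ : ℤˣ) : ℤ) •
      extProd (fun i => a (σ i)) ∈ ((proj k (van k ξ)).pow n).Rat :=
  main h ξ hξ hn a ha0 haJ

end Pool.Agent.Helper15.Keep.GeneralTypeV1
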