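import Mathlib
import Pool.Agent.Helper15.JD.Main

/-!
# Voisin's conjecture for surfaces decomposed into genus one fibrations

Let `k` be an algebraically closed field of characteristic zero. `Cls k F p` (file Helper15/JD/Cls.lean) is the smallest
class of pairs of a field `F` over `k` and a number `p` with the following properties.
* (`fib`) Let `C` be a curve of genus one over the function field `K` of a curve `B` of genus `g`, with Jacobian
  `y ^ 2 = x ^ 3 + a x + b`, and let `E` be the minimal divisor on `B` with `div a + 4 E ≥ 0`, `div b + 6 E ≥ 0`. Then
  `(k (C), p)` is in the class for `p = deg E + g - 1`, but `p = g` if `E` is a principal divisor. Let `S` be the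
  smooth surface with a relatively minimal fibration over `B` with generic fibre `C` (there may be multiple
  fibres). Then `deg E = χ (O_S)` and `p = h^0 (B, K_B + E) = p_g (S)`.
* (`ruled`) `(K (x), 0)` is in the class, if `K` is the function field of a curve.
* (`dec`) Let the finite group `G` act on a field `N`, let `H`, `G_1, …, G_m` be subgroups such that the sum of the elements of `H` is
  in the left ideal of `ℚ[G]` generated by the sums of the elements of the `G_i`, and let the pairs of the fixed field of `G_i` and
  `p_i` be in the class. Then the pair of the fixed field of `H` and `p_1 + ⋯ + p_m` is in the class. So if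
  `F ⊆ F'` is a finite extension and `(F', p)` is in the class then `(F, p)` is (`N` the Galois closure).
* (`jac`) Let `X`, `Y_1, …, Y_m` be (smooth projective, geometrically irreducible) curves over the function field `K` of a
  curve, let `U_i` be a correspondence from `X` to `Y_i` and `V_i` one from `Y_i` to `X` (each given by a curve over `K` with finite
  morphisms to both), and let `N > 0` be such that the divisor `N A - ∑ V_i U_i A` is principal for every divisor
  `A` of degree zero on `X` over an algebraic closure of `K`. If the pairs `(k (Y_i), p_i)` are in the class, then
  `(k (X), p_1 + ⋯ + p_m)` is. In other words: THE JACOBIAN OF `X` IS UP TO ISOGENY A FACTOR OF THE PRODUCT OF THE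
  JACOBIANS OF THE `Y_i` (a multiple of a homomorphism of Jacobians is given by a divisor on `X × Y_i`; adding multiples of
  the fibres one may take a very ample one, hence by Bertini a smooth geometrically irreducible curve). Files Helper79/JC/BC.lean (base change to the algebraic closure), Helper98/JC/Pull.lean
  (push-forward and pull-back of divisors), Helper15/JD/Cr.lean (correspondences).

Theorem. Let `(F, p)` be in the class, `S ⊆ P^(M-1)` the closure of a point `ξ` with coordinates in `F` (for example any
projective surface with function field `F`), `n > p`, and `a_1, …, a_n` ALBANESE TRIVIAL cycles on `S`: of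
degree zero, and for every finite extension `F'` of `F` and every curve `B` of positive genus with `k (B) ⊆ F'` mapped to
zero by the map `S → Pic (B)` (pull-back to `F'`, push-forward to `B`), which is assumed to be defined on all of
`S` (`IsCor`, file Helper15/JD/IsCor.lean). Then the alternating sum of the exterior products `a_{σ(1)} × ⋯ × a_{σ(n)}` is torsion
in the Chow group of zero-cycles of `S ^ n`.
For smooth `S` with function field `F` these maps are morphisms, and they vanish on all cycles of degree zero with
trivial image in the Albanese variety. Conversely the condition says that the image in the Albanese variety is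
torsion, because every abelian variety is a factor of a Jacobian up to isogeny. So the theorem is Voisin's
conjecture (over `ℚ`; over `ℤ` by Roitman's theorem) for `S` and `n > p`.

Examples with `p = p_g (S)` (not part of the theorem), for smooth projective `S`:
* ALL surfaces with a genus one fibration: so all surfaces of Kodaira dimension one, all K3 surfaces of Picard
  number at least five, for example the K3 double planes branched along a line and a quintic, all Enriques and
  bielliptic surfaces; all ruled surfaces;
* ALL surfaces with a fibration over `P¹` in curves of genus `g ≤ q (S) + 1`: the Jacobian of the generic fibre is isogenous to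
  the product of a constant abelian variety of dimension `q (S)` and an elliptic curve `E` (or zero), and the former is a
  factor of the Jacobian of a constant curve `C × P¹ → P¹`, which is ruled over `C`; `H^(2,0) (S)` is contained in the
  cohomology `H¹ (P¹, R¹)`, to which constant factors do not contribute, so `p_g (S)` is the one of the elliptic surface.
  Besides `g = 1` (and ruled surfaces) these are the fibrations with `g = 2`, `q = 1` and those with `g = 3`, `q = 2`
  (non-isotrivial fibrations over `P¹` have `q ≤ (g + 1) / 2` by Xiao, isotrivial ones by the formula of Hurwitz). For
  `g = 2`, `q = 1` the Albanese curve is covered by the fibres with degree `d` (`2 ≤ d ≤ 5` if the fibration is not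
  isotrivial), and `K_S ^ 2 = (7 - 6 / d) (p_g + 1) - 8` (Xiao) for the relatively minimal surface. For `g = 3`, `q = 2` one has for
  instance all smooth surfaces in the linear systems `|O (d) ⊠ L|` on `P¹ × A`, where `A` is any abelian surface and `L` a
  polarization of type `(1, 2)` on it, with `K_S ^ 2 = 12 d - 16`, `p_g = 2 d - 1`;
* more generally all fibrations over `P¹` whose generic fibre has a Jacobian isogenous to the product of elliptic curves and
  of a constant abelian variety, the same over curves `B` of genus one for constant abelian varieties of dimension at most three
  (products of Jacobians of curves `C` up to isogeny, and `(k (B × C), g (C))` is in the class by (`fib`) for the projection to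
  `C`), and all fibrations over any curve `B` with Jacobian isogenous to a product of elliptic curves over `K = k (B)`. For instance ALL FIBRATIONS IN CURVES OF GENUS TWO WITH SPLIT JACOBIAN; for example
  (Goursat) `X : y ^ 2 = P Q`, `P = x ^ 3 + a x ^ 2 + b x + c`, `Q = 4 c x ^ 3 + (b x + c) ^ 2`, with general polynomials
  `a`, `b`, `c` of degrees `2 e`, `4 e`, `6 e` in `t`, where `s = P / x ^ 2` defines a threefold cover of the curve
  `v ^ 2 = s (4 c (s - a) ^ 3 + b ^ 2 (s - a) ^ 2 - 18 b c (s - a) - 4 b ^ 3 - 27 c ^ 2)` of genus one; here `q = 0`,
  `p_g (S) = 6 e - 2 = (5 e - 1) + (e - 1)` and `K_S ^ 2 = 18 e - 8` for the relatively minimal surface, and for general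
  `a`, `b`, `c` the hyperelliptic involution is the only automorphism of `X`;
* all `(ℤ/2)^r`-covers `S` of `P¹ × P¹`, or of any ruled surface over a curve `B`, such that each of the `2 ^ r - 1` double
  subcovers is branched along a curve of degree at most four over the base of some ruling: by the theory of
  abelian covers `p_g (S)` is the sum of their geometric genera. For instance the
  bidouble covers of `P¹ × P¹` branched along three smooth curves of bidegree `(2, m)`, which have `p_g = 3 (m - 1)`
  and ample canonical class for `m ≥ 2`; the intersections of four diagonal quadrics in `P⁶` (`(ℤ/2)^6`-covers of
  the plane branched along seven lines; `p_g = 7`, `K = O (1)`); bidouble planes branched along three cubics (`p_g = 3`).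
* in particular, for `k ≥ 2`, the smooth bidouble covers `S` of `Y = P¹ × P¹` with branch curves `D_1`, `D_3` of bidegree
  `(2, 4)` and `D_2` consisting of `2 k` curves of bidegree `(1, 0)`. Here `L_i = (D_j + D_l) / 2` has bidegree
  `(k + 1, 2)`, `(2, 4)`, `(k + 1, 2)`, so `K_S` is the pull back of `O (k, 2)`, which is ample, `K_S² = 16 k`, `q = 0` and
  `p_g = ∑ h⁰ (K_Y + L_i) = k + 3 + k`. THESE SURFACES FORM AN OPEN SUBSET OF THE MODULI SPACE of surfaces of general
  type: `H¹ (S, T_S)` is the sum of `H¹ (Y, T_Y (- log D))` and of the three groups
  `H¹ (Y, T_Y (- log D_i) ⊗ L_i⁻¹)` (Pardini), and the latter vanish. For `i = 2` the restriction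
  `H¹ (O (0, -4)) → ⊕ H¹ (O (-4))` to the `2 k` fibres is injective. For `i = 1, 3` one has
  `H⁰ (O_D (1 - k, 2)) = 0`, and `H¹ (O (- k - 1, 0)) → H¹ (O_D (1 - k, 2)) → H² (O (- k - 1, - 2))` is injective, because it is
  the product with the class in `H¹ (O (0, - 2))` of the section `θ` of `O_D (2, 2)`, `(∂f/∂y_0, ∂f/∂y_1) = θ (y_1, - y_0)`,
  and `θ` does not extend to `Y` by Euler's formula. So every small deformation of `S` is a surface of this form, and
  the conjecture holds (over `ℚ`) for an open set of surfaces in infinitely many components of the moduli space.
Moreover, if a surface `S` is dominated by a surface `T` with a genus one fibration, then by (`dec`) the pair `(k (S), p_g (T))` is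
in the class. EVERY K3 surface `S` is dominated by such a surface (there are families of curves of geometric genus one
covering `S`: Bogomolov, Mumford), so that the conjecture holds for `S` for all but finitely many `n`; for the double planes
branched along any smooth sextic for all `n > 63` (the inverse images of the tangents of the sextic: `g = 10`, `deg E ≤ 54`).
(The surfaces (4), (5), (6) of IrregularSurfaces belong to the class too.)

Outline of the proof. All cycles are written in terms of the rational places (valuation rings with residue field `k`) of the
algebraic closure of `F`, and correspondences in terms of embeddings of fields.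
* Genus one fibrations: Helper21/TB (`E` not principal), Helper51/IZ (`deg E = 0`), Helper21/TZ (`E` principal: modulo
  functionals coming from the constant Jacobian every functional has the same restriction to all fibres). Ruled
  surfaces: a function on the points of `S` which vanishes on the cycles rationally equivalent to
  zero comes from the base over almost all points of the base; hence everywhere, by choosing a curve through
  any given place of `F` and comparing harmonic functions on it.
* Decomposition. Let `ψ_s : F → Ē` be a family of embeddings in the algebraic closure of `E`, invariant under the
  automorphisms over `E`. The closure `X` of the point with coordinates `∏_s ψ_s (∑_j c_j ξ_j)`, where `c` runs through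
  a grid, is a model of a subfield of `E`, and its points are products of linear forms; so it carries a correspondence
  `Z` to cycles on `S`. If a multiple of every Albanese trivial cycle `a` on `S` is `∑_i Z_i (b_i)` with Albanese
  trivial `b_i` on models `X_i` of the `E_i`, then in the expansion of the alternating product of `n > ∑ p_i` such sums
  each term contains more than `p_i` factors from some `X_i`; by the theorem for `X_i` it vanishes. For (`dec`) the identity
  in the group ring gives such a decomposition.
* The rule (`jac`). A function `u` on the points of a model of `F`, vanishing on the cycles rationally equivalent to zero, gives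
  a function on the rational places of `F`. For a place `x` of the function field `M` of `X_Ω` and a place `P` of `Ω` there is
  the composite place of `M`. If `g` is a function on `X_Ω` then the sum of the numbers `ord_x (g) u (x ∘ P)` is zero (the `x`
  are points of the generic fibre over a finite extension of `K`, and `g` is a rational function on the corresponding
  surface). So the function `N u - ∑ V_i U_i u` does not depend on the choice of `x` over `P`. The composite places have all
  points of all models as centers, so this function comes from a function on the places of `K`, which
  is harmonic. Hence it vanishes on Albanese trivial cycles.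
-/

namespace Pool.Agent.Helper15.Keep.GeneralTypeV2p

open VC Pool.Agent.Helper21.TO Pool.Agent.Helper15.GT Pool.Agent.Helper15.JD

universe u

theorem result (k : Type u) [Field k] [IsAlgClosed k] [CharZero k] (F : Type u) [Field F] [Algebra k F]
    (p : ℕ) (h : Cls k F p) (M : ℕ) (ξ : Fin M → F) (hξ : ξ ≠ 0) (n : ℕ) (hn : p < n)
    (a : Fin n → (proj k (van k ξ)).Cycles) (ha0 : ∀ l, (a l).sum (fun _ c => c) = 0)
    (haJ : ∀ (N : Type u) [Field N] [Algebra k N] (i : F →ₐ[k] N) (_ : (i : F →+* N).Finite) (K : Type u)
      [Field K] [Algebra k K] (hK : IsFunctionField k K) (j : K →ₐ[k] N), ¬ IsGenus k K 0 →
        ∃ θ : PPt k k (van k ξ) → Place k K →₀ ℤ, IsCor hK i j ξ hξ θ ∧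
          ∀ l, Finsupp.linearCombination ℤ θ (a l) ∈ (curve hK).Rat) :
    ∃ m : ℕ, 0 < m ∧ m • ∑ σ : Equiv.Perm (Fin n), ((Equiv.Perm.sign σ : ℤˣ) : ℤ) •
      extProd (fun i => a (σ i)) ∈ ((proj k (van k ξ)).pow n).Rat :=
  main h ξ hξ hn a ha0 haJ

end Pool.Agent.Helper15.Keep.GeneralTypeV2p
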